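import Mathlib

/-!
# Borel-Moore homology with a Frobenius operator: definitions

The intended situation: `k` is a finitely generated field of characteristic `p`, `E = ℚ_ℓ`, and for a
variety `X` over `k` the space `H X i` consists of the classes in the part of weight zero of the étale
Borel-Moore homology `H_2i(X̄, ℚ_ℓ(i))` which are invariant under the geometric Galois group `G^geo`
(the kernel of `G_k → Gal(closure of 𝔽_p / 𝔽_q)`, where `𝔽_q` is the field of constants); `F` is the
operator of a Frobenius element, and `B X i` is the set of classes of cycles with rational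
coefficients.
-/

set_option autoImplicit false

universe u

namespace Pool.Agent.J4H12.JT

open Module

/-- Homology groups (vector spaces over `E`) of varieties, with an operator `F` (Frobenius) and
rational subspaces `B X i` of classes of algebraic cycles, which are fixed by `F`. -/
structure Homology (E : Type u) [Field E] [CharZero E] where
  /-- the varieties -/
  Var : Type u
  /-- the homology of `X` in degree `2 i` -/
  H : Var → ℕ → Type u
  [instAdd : ∀ X i, AddCommGroup (H X i)]
  [instMod : ∀ X i, Module E (H X i)]
  [instRat : ∀ X i, Module ℚ (H X i)]
  [instTower : ∀ X i, IsScalarTower ℚ E (H X i)]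
  [instFin : ∀ X i, FiniteDimensional E (H X i)]
  /-- Frobenius -/
  F : ∀ X i, H X i →ₗ[E] H X i
  /-- the classes of the `i`-dimensional cycles with rational coefficients -/
  B : ∀ X i, Submodule ℚ (H X i)
  /-- classes of cycles are fixed by Frobenius -/
  fixed : ∀ X i, ∀ x ∈ B X i, F X i x = x

attribute [instance] Homology.instAdd Homology.instMod Homology.instRat Homology.instTower
  Homology.instFin

namespace Homology

variable {E : Type u} [Field E] [CharZero E] (T : Homology E)

/-- The classes fixed by Frobenius (the Tate classes). -/
def tate (X : T.Var) (i : ℕ) : Submodule E (T.H X i) := LinearMap.ker (T.F X i - 1)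

/-- The generalized eigenspace of Frobenius for the eigenvalue one: all `x` with
`(F - 1) ^ n x = 0` for some `n`. -/
def gen (X : T.Var) (i : ℕ) : Submodule E (T.H X i) := Module.End.maxGenEigenspace (T.F X i) 1

/-- The `E`-linear combinations of classes of cycles. -/
def cyc (X : T.Var) (i : ℕ) : Submodule E (T.H X i) := Submodule.span E (T.B X i : Set (T.H X i))

/-- Part (a) of Q1: every Tate class is a linear combination of classes of cycles. -/
def PartA (X : T.Var) (i : ℕ) : Prop := T.tate X i ≤ T.cyc X i

/-- The map from the tensor product of `B X i` with `E` to the homology is injective: classes of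
cycles which are linearly independent over the rational numbers are linearly independent over `E`.
-/
def Inj (X : T.Var) (i : ℕ) : Prop :=
  ∀ (ι : Type u) (v : ι → T.H X i), (∀ j, v j ∈ T.B X i) → LinearIndependent ℚ v →
    LinearIndependent E v

/-- Part (b) of Q1 (with rational coefficients): the tensor product of `B X i` with `E` is
isomorphic to the space of Tate classes. -/
def PartB (X : T.Var) (i : ℕ) : Prop := T.PartA X i ∧ T.Inj X i

/-- Semisimplicity of Frobenius at the eigenvalue one. -/
def Semisimple (X : T.Var) (i : ℕ) : Prop := T.gen X i ≤ T.tate X i

/-- Q2: the rank of `B X i` is the multiplicity of the root one of the characteristic polynomial of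
Frobenius on `H X i` (by the theorems of Grothendieck and Deligne this is the order of the pole of the
`L`-function). In particular the rank is finite. -/
def PoleOrder (X : T.Var) (i : ℕ) : Prop :=
  Module.rank ℚ (T.B X i) = (((T.F X i).charpoly.rootMultiplicity 1 : ℕ) : Cardinal.{u})

/-- The same with the dimension of the generalized eigenspace. -/
lemma poleOrder_iff {X : T.Var} {i : ℕ} :
    T.PoleOrder X i ↔ Module.rank ℚ (T.B X i) = Module.rank E (T.gen X i) := by
  rw [PoleOrder, ← LinearMap.finrank_maxGenEigenspace_eq, ← Module.finrank_eq_rank E]
  rfl

/-- An exact sequence `H A → H B → H X → 0` of homology groups, compatible with Frobenius and with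
the classes of cycles, such that every class of a cycle on `X` comes from `B`. -/
structure Presentation (A B X : T.Var) (i : ℕ) where
  a : T.H A i →ₗ[E] T.H B i
  b : T.H B i →ₗ[E] T.H X i
  comm_a : ∀ x, a (T.F A i x) = T.F B i (a x)
  comm_b : ∀ x, b (T.F B i x) = T.F X i (b x)
  exact : LinearMap.range a = LinearMap.ker b
  surj : Function.Surjective b
  cyc_a : ∀ x ∈ T.B A i, a x ∈ T.B B i
  cyc_b : ∀ x ∈ T.B B i, b x ∈ T.B X i
  lift : ∀ x ∈ T.B X i, ∃ y ∈ T.B B i, b y = x

/-- The generalized eigenspace for the eigenvalue one is spanned by the classes of cycles. (This is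
so if `Z` is of dimension at most `i`: then `H_2i(Z̄, ℚ_ℓ(i))` has the classes of the irreducible
components of `Z̄` of dimension `i` as a basis.) -/
def Small (Z : T.Var) (i : ℕ) : Prop := T.gen Z i ≤ T.cyc Z i

/-- `U` is the complement in `X` of a closed subvariety of dimension at most `i` (see `Small`) which
contains the cycles with the classes in `s`. -/
def IsComplement (X : T.Var) (i : ℕ) (U : T.Var) (s : Set (T.H X i)) : Prop :=
  ∃ (Z : T.Var) (P : T.Presentation Z X U i), T.Small Z i ∧ ∀ x ∈ s, ∃ z ∈ T.B Z i, P.a z = x

/-- A perfect pairing between the homology of `P` in the degrees `2 i` and `2 i'`, invariant under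
Frobenius, with rational values on classes of cycles. -/
def Dual (P : T.Var) (i i' : ℕ) : Prop :=
  ∃ β : T.H P i →ₗ[E] T.H P i' →ₗ[E] E,
    (∀ x, (∀ y, β x y = 0) → x = 0) ∧ (∀ x y, β (T.F P i x) (T.F P i' y) = β x y) ∧
      ∀ x ∈ T.B P i, ∀ y ∈ T.B P i', ∃ r : ℚ, β x y = r

/-- The properties of étale Borel-Moore homology which are used. `Sm` is the class of the smooth
projective varieties. -/
structure Geometric (Sm : T.Var → Prop) : Prop where
  /-- For every finite set of classes of cycles on `X` there is a closed subvariety of dimension at
  most `i` which supports the cycles; localization sequence for its complement. -/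
  support : ∀ (X : T.Var) (i : ℕ) (s : Finset (T.H X i)), (∀ x ∈ s, x ∈ T.B X i) →
    ∃ U, T.IsComplement X i U s
  /-- Alterations and proper descent: for every `X` there are a proper surjective morphism `X' → X`
  and an open immersion `X' → P` in a smooth projective variety `P`. The homology of `X'` is
  presented by the homology of `P` and of the complement, the homology of `X` is presented by the
  homology of `X'` and of `X' ×_X X'`. -/
  resolution : ∀ (X : T.Var) (i : ℕ), ∃ (P Z X' R : T.Var), Sm P ∧
    Nonempty (T.Presentation Z P X' i) ∧ Nonempty (T.Presentation R X' X i)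
  /-- Poincaré duality for smooth projective varieties. -/
  duality : ∀ (P : T.Var) (i : ℕ), Sm P → ∃ i', T.Dual P i i'

end Homology

/-- Every variety over the field of the theory `T₁` (a finitely generated field `K`) has a model over
the field of the theory `T₀` (the field of constants): the homology of the model maps onto the
homology of the variety (restriction to the generic fibre; the theorem on global invariant
cycles). -/
def Spreads {E : Type u} [Field E] [CharZero E] (T₀ T₁ : Homology E) : Prop :=
  ∀ (X : T₁.Var) (i : ℕ), ∃ (M : T₀.Var) (j : ℕ) (r : T₀.H M j →ₗ[E] T₁.H X i),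
    Function.Surjective r ∧ (∀ x, r (T₀.F M j x) = T₁.F X i (r x)) ∧ ∀ x ∈ T₀.B M j, r x ∈ T₁.B X i

/-- For every variety over the field of `T₀` there is a variety over the field of `T₁` (its base
change) with the same homology, and the class of every cycle on it is the class of a cycle on the
given variety (specialization). -/
def Extends {E : Type u} [Field E] [CharZero E] (T₀ T₁ : Homology E) : Prop :=
  ∀ (X : T₀.Var) (i : ℕ), ∃ (Y : T₁.Var) (e : T₁.H Y i ≃ₗ[E] T₀.H X i),
    (∀ y, e (T₁.F Y i y) = T₀.F X i (e y)) ∧ ∀ y ∈ T₁.B Y i, e y ∈ T₀.B X i

end Pool.Agent.J4H12.JT
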