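import Pool.Agent.J4H12.JT.Main

/-!
# The local and the global equivalence
-/

set_option autoImplicit false

universe u

namespace Pool.Agent.J4H12.JT

open Module

namespace Homology

variable {E : Type u} [Field E] [CharZero E] {T : Homology E} {X : T.Var} {i : ℕ}

/-- Strong Tate and Q2 imply injectivity. -/
theorem inj_of_poleOrder (h : T.TS X i) (hq' : T.PoleOrder X i) : T.Inj X i := by
  classical
  have hq := T.poleOrder_iff.1 hq'
  have hlt : Module.rank ℚ (T.B X i) < Cardinal.aleph0 := by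
    rw [hq]
    exact Module.rank_lt_aleph0 E _
  have hfin : Module.Finite ℚ (T.B X i) := Module.rank_lt_aleph0_iff.1 hlt
  let c := Module.finBasis ℚ (T.B X i)
  have hgen : T.cyc X i = T.gen X i :=
    le_antisymm ((cyc_le_tate X i).trans (tate_le_gen X i)) h
  have hcg : ∀ j, (c j : T.H X i) ∈ T.gen X i := fun j => by
    rw [← hgen]; exact Submodule.subset_span (c j).2
  let k : Fin (finrank ℚ (T.B X i)) → T.gen X i := fun j => ⟨(c j : T.H X i), hcg j⟩
  have hspan : ⊤ ≤ Submodule.span E (Set.range k) := by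
    rintro ⟨x, hx⟩ -
    have h1 : x ∈ T.cyc X i := by rw [hgen]; exact hx
    have h2 : T.cyc X i ≤ (Submodule.span E (Set.range k)).map (T.gen X i).subtype := by
      rw [cyc, Submodule.span_le]
      intro y hy
      have h3 : y ∈ Submodule.span ℚ (Set.range fun j => (c j : T.H X i)) := by
        have h4 : (Set.range fun j => (c j : T.H X i)) = (T.B X i).subtype '' Set.range c := by
          rw [← Set.range_comp]; rfl
        rw [h4, Submodule.span_image, c.span_eq, Submodule.map_top, Submodule.range_subtype]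
        exact hy
      have h5 := Submodule.span_le_restrictScalars ℚ E _ h3
      have h6 : Submodule.span E (Set.range fun j => (c j : T.H X i)) ≤
          (Submodule.span E (Set.range k)).map (T.gen X i).subtype := by
        rw [Submodule.span_le]
        rintro _ ⟨j, rfl⟩
        exact ⟨k j, Submodule.subset_span ⟨j, rfl⟩, rfl⟩
      exact h6 h5
    obtain ⟨y, hy, hyx⟩ := h2 h1
    have : y = ⟨x, hx⟩ := Subtype.ext hyx
    rwa [← this]
  have hcard : Fintype.card (Fin (finrank ℚ (T.B X i))) = finrank E (T.gen X i) := by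
    rw [Fintype.card_fin]
    have h1 := hq
    rw [← Module.finrank_eq_rank ℚ, ← Module.finrank_eq_rank E] at h1
    exact_mod_cast h1
  have hkE : LinearIndependent E k := linearIndependent_of_top_le_span_of_card_eq_finrank hspan hcard
  have hcE : LinearIndependent E (fun j => (c j : T.H X i)) :=
    hkE.map' (T.gen X i).subtype (Submodule.ker_subtype _)
  intro ι v hv hlin
  let v' : ι → T.B X i := fun j => ⟨v j, hv j⟩
  have hv' : LinearIndependent ℚ v' := LinearIndependent.of_comp (T.B X i).subtype hlin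
  -- the coordinates
  have hrow : LinearIndependent ℚ (fun j => (fun m => c.repr (v' j) m)) := by
    have h1 := hv'.map' c.equivFun.toLinearMap (LinearEquiv.ker _)
    exact h1
  have hrowE := linearIndependent_ratCast (E := E) hrow
  have hvc : ∀ j, v j = ∑ m, ((c.repr (v' j) m : ℚ) : E) • (c m : T.H X i) := by
    intro j
    have h1 := congrArg (Subtype.val) (c.sum_repr (v' j))
    rw [Submodule.coe_sum] at h1
    rw [show v j = (v' j : T.H X i) from rfl, ← h1]
    refine Finset.sum_congr rfl fun m _ => ?_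
    rw [Submodule.coe_smul]
    exact (Rat.cast_smul_eq_qsmul E _ _).symm
  rw [linearIndependent_iff'] at hrowE ⊢
  intro s g hg j hj
  refine hrowE s g ?_ j hj
  have h1 : ∑ m, (∑ j ∈ s, g j * ((c.repr (v' j) m : ℚ) : E)) • (c m : T.H X i) = 0 := by
    rw [← hg]
    simp_rw [Finset.sum_smul, mul_smul]
    rw [Finset.sum_comm]
    refine Finset.sum_congr rfl fun j _ => ?_
    rw [hvc j, Finset.smul_sum]
  have h2 := Fintype.linearIndependent_iff.1 hcE _ h1
  funext m
  simpa using h2 m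

/-- `U` is the complement in `X` of a closed subvariety of dimension at most `i`. -/
def IsOpenIn (T : Homology E) (X : T.Var) (i : ℕ) (U : T.Var) : Prop := T.IsComplement X i U ∅

lemma IsComplement.isOpenIn {U : T.Var} {s : Set (T.H X i)} (h : T.IsComplement X i U s) :
    T.IsOpenIn X i U := by
  obtain ⟨Z, P, h1, -⟩ := h
  exact ⟨Z, P, h1, fun x hx => absurd hx (Set.notMem_empty x)⟩

/-- The supports of cycles on `X`: for all finite sets of classes of cycles there is a closed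
subvariety of dimension at most `i` which contains these cycles. -/
def HasSupports (T : Homology E) (X : T.Var) (i : ℕ) : Prop :=
  ∀ s : Finset (T.H X i), (∀ x ∈ s, x ∈ T.B X i) → ∃ U, T.IsComplement X i U s

/-- **Local form, (a).** -/
theorem local_a (hsup : T.HasSupports X i) :
    (∀ U, T.IsOpenIn X i U → T.PartA U i) ↔ T.PartA X i ∧ T.Semisimple X i := by
  constructor
  · intro h
    exact ts_iff.1 (ts_of_partA hsup fun U s hU => h U hU.isOpenIn)
  · rintro h U ⟨Z, P, -, -⟩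
    exact (ts_iff.1 (P.ts (ts_iff.2 h))).1

/-- **Local form, (b).** -/
theorem local_b (hsup : T.HasSupports X i) :
    (T.PartB X i ∧ ∀ U, T.IsOpenIn X i U → T.PartB U i) ↔ T.PartB X i ∧ T.Semisimple X i := by
  constructor
  · rintro ⟨hX, h⟩
    exact ⟨hX, (ts_iff.1 (ts_of_partA hsup fun U s hU => (h U hU.isOpenIn).1)).2⟩
  · rintro ⟨hX, hS⟩
    refine ⟨hX, ?_⟩
    rintro U ⟨Z, P, hZ, -⟩
    exact ⟨(ts_iff.1 (P.ts (ts_iff.2 ⟨hX.1, hS⟩))).1, P.inj hZ hX.2⟩

/-- **Local form, Q2.** -/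
theorem local_q (hsup : T.HasSupports X i) :
    (T.PoleOrder X i ∧ ∀ U, T.IsOpenIn X i U → T.PoleOrder U i) ↔
      T.PartB X i ∧ T.Semisimple X i := by
  constructor
  · rintro ⟨hX, h⟩
    have h1 := ts_of_poleOrder hX hsup fun U s hU => h U hU.isOpenIn
    exact ⟨⟨(ts_iff.1 h1).1, inj_of_poleOrder h1 hX⟩, (ts_iff.1 h1).2⟩
  · rintro ⟨hX, hS⟩
    have h1 := ts_iff.2 ⟨hX.1, hS⟩
    refine ⟨poleOrder_of h1 hX.2, ?_⟩
    rintro U ⟨Z, P, hZ, -⟩
    exact poleOrder_of (P.ts h1) (P.inj hZ hX.2)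

/-- (a) for all varieties -/
def AllA (T : Homology E) : Prop := ∀ X i, T.PartA X i

/-- (b) for all varieties -/
def AllB (T : Homology E) : Prop := ∀ X i, T.PartB X i

/-- Q2 for all varieties -/
def AllQ2 (T : Homology E) : Prop := ∀ X i, T.PoleOrder X i

/-- the Tate conjecture and semisimplicity for all varieties in `Sm` -/
def StrongTate (T : Homology E) (Sm : T.Var → Prop) : Prop :=
  ∀ P, Sm P → ∀ i, T.PartA P i ∧ T.Semisimple P i

variable {Sm : T.Var → Prop}

lemma Geometric.hasSupports (h : T.Geometric Sm) (X : T.Var) (i : ℕ) : T.HasSupports X i :=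
  h.support X i

lemma Geometric.ts_all (h : T.Geometric Sm) (hS : T.StrongTate Sm) (X : T.Var) (i : ℕ) :
    T.TS X i := by
  obtain ⟨P, Z, X', R, hP, ⟨p₁⟩, ⟨p₂⟩⟩ := h.resolution X i
  exact p₂.ts (p₁.ts (ts_iff.2 (hS P hP i)))

lemma Geometric.inj_all (h : T.Geometric Sm) (hS : T.StrongTate Sm) (X : T.Var) (i : ℕ) :
    T.Inj X i := by
  obtain ⟨P, Z, X', R, hP, ⟨p₁⟩, ⟨p₂⟩⟩ := h.resolution X i
  obtain ⟨i', hd⟩ := h.duality P i hP
  have h1 : T.Inj P i := inj_of_dual hd (ts_iff.2 (hS P hP i'))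
  exact p₂.inj (h.ts_all hS R i) (p₁.inj (h.ts_all hS Z i) h1)

lemma strongTate_of_ts (h : ∀ X i, T.TS X i) : T.StrongTate Sm := fun P _ i => ts_iff.1 (h P i)

lemma Geometric.ts_of_allA (h : T.Geometric Sm) (hA : T.AllA) (X : T.Var) (i : ℕ) : T.TS X i :=
  ts_of_partA (h.support X i) fun U _ _ => hA U i

lemma Geometric.ts_of_allQ2 (h : T.Geometric Sm) (hA : T.AllQ2) (X : T.Var) (i : ℕ) : T.TS X i :=
  ts_of_poleOrder (hA X i) (h.support X i) fun U _ _ => hA U i

lemma Geometric.allB (h : T.Geometric Sm) (hS : T.StrongTate Sm) : T.AllB := fun X i =>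
  ⟨(ts_iff.1 (h.ts_all hS X i)).1, h.inj_all hS X i⟩

lemma Geometric.allQ2 (h : T.Geometric Sm) (hS : T.StrongTate Sm) : T.AllQ2 := fun X i =>
  poleOrder_of (h.ts_all hS X i) (h.inj_all hS X i)

/-- **Global form.** -/
theorem global (h : T.Geometric Sm) : List.TFAE [T.AllA, T.AllB, T.AllQ2, T.StrongTate Sm] := by
  tfae_have 2 → 1 := fun hB X i => (hB X i).1
  tfae_have 1 → 4 := fun hA => strongTate_of_ts (h.ts_of_allA hA)
  tfae_have 3 → 4 := fun hA => strongTate_of_ts (h.ts_of_allQ2 hA)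
  tfae_have 4 → 2 := h.allB
  tfae_have 4 → 3 := h.allQ2
  tfae_finish

end Homology

open Homology

variable {E : Type u} [Field E] [CharZero E] {T₀ T₁ : Homology E} {Sm₀ : T₀.Var → Prop}
  {Sm₁ : T₁.Var → Prop}

lemma ts_of_spreads (h : Spreads T₀ T₁) (h₀ : ∀ X i, T₀.TS X i) (X : T₁.Var) (i : ℕ) :
    T₁.TS X i := by
  obtain ⟨M, j, r, hs, hF, hB⟩ := h X i
  intro x hx
  obtain ⟨y, rfl⟩ := hs x
  obtain ⟨z, hz, hzy⟩ := exists_gen hF hx
  rw [← hzy]
  have h1 : T₀.cyc M j ≤ (T₁.cyc X i).comap r := by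
    rw [cyc, Submodule.span_le]
    exact fun t ht => Submodule.subset_span (hB t ht)
  exact h1 (h₀ M j hz)

lemma ts_of_extends (h : Extends T₀ T₁) (h₁ : ∀ X i, T₁.TS X i) (X : T₀.Var) (i : ℕ) :
    T₀.TS X i := by
  obtain ⟨Y, e, hF, hB⟩ := h X i
  intro x hx
  obtain ⟨y, rfl⟩ := e.surjective x
  obtain ⟨z, hz, hzy⟩ := exists_gen (f := e.toLinearMap) hF hx
  have hzy' : e z = e y := hzy
  rw [← hzy']
  have h1 : T₁.cyc Y i ≤ (T₀.cyc X i).comap e.toLinearMap := by
    rw [cyc, Submodule.span_le]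
    exact fun t ht => Submodule.subset_span (hB t ht)
  exact h1 (h₁ Y i hz)

/-- **Two fields.** -/
theorem two_fields (h₀ : T₀.Geometric Sm₀) (h₁ : T₁.Geometric Sm₁) (hs : Spreads T₀ T₁)
    (he : Extends T₀ T₁) :
    List.TFAE [T₀.AllA, T₀.AllB, T₀.AllQ2, T₀.StrongTate Sm₀,
      T₁.AllA, T₁.AllB, T₁.AllQ2, T₁.StrongTate Sm₁] := by
  have g₀ := global h₀
  have g₁ := global h₁
  tfae_have 1 ↔ 2 := g₀.out 0 1
  tfae_have 1 ↔ 3 := g₀.out 0 2
  tfae_have 1 ↔ 4 := g₀.out 0 3
  tfae_have 5 ↔ 6 := g₁.out 0 1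
  tfae_have 5 ↔ 7 := g₁.out 0 2
  tfae_have 5 ↔ 8 := g₁.out 0 3
  tfae_have 4 → 8 := fun h => strongTate_of_ts (ts_of_spreads hs (h₀.ts_all h))
  tfae_have 8 → 4 := fun h => strongTate_of_ts (ts_of_extends he (h₁.ts_all h))
  tfae_finish

end Pool.Agent.J4H12.JT
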