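import Pool.Agent.J4H12.JT.Defs

/-!
# Linear algebra: generalized eigenspaces and rational structures
-/

set_option autoImplicit false

universe u

namespace Pool.Agent.J4H12.JT

open Module

section Gen

variable {E : Type*} [Field E] {V W : Type*} [AddCommGroup V] [Module E V] [AddCommGroup W]
  [Module E W] {F : V →ₗ[E] V} {G : W →ₗ[E] W}

lemma comm_sub {f : V →ₗ[E] W} (h : ∀ x, f (F x) = G (f x)) (n : ℕ) (x : V) :
    f (((F - 1) ^ n) x) = ((G - 1) ^ n) (f x) := by
  induction n generalizing x with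
  | zero => simp
  | succ n ih =>
    rw [pow_succ, pow_succ, Module.End.mul_apply, Module.End.mul_apply, ih]
    congr 1
    simp [h]

lemma mem_gen {x : V} : x ∈ Module.End.maxGenEigenspace F 1 ↔ ∃ n : ℕ, ((F - 1) ^ n) x = 0 := by
  rw [Module.End.mem_maxGenEigenspace, one_smul]

lemma map_gen {f : V →ₗ[E] W} (h : ∀ x, f (F x) = G (f x)) {x : V}
    (hx : x ∈ Module.End.maxGenEigenspace F 1) : f x ∈ Module.End.maxGenEigenspace G 1 := by
  obtain ⟨n, hn⟩ := mem_gen.1 hx
  exact mem_gen.2 ⟨n, by rw [← comm_sub h, hn, map_zero]⟩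

/-- Fitting: large powers split the space. -/
lemma fitting [FiniteDimensional E V] (F : V →ₗ[E] V) (n₀ : ℕ) : ∃ n, n₀ ≤ n ∧
    IsCompl (LinearMap.ker ((F - 1) ^ n)) (LinearMap.range ((F - 1) ^ n)) := by
  have h := (F - 1).eventually_isCompl_ker_pow_range_pow
  obtain ⟨N, hN⟩ := Filter.eventually_atTop.1 h
  exact ⟨max N n₀, le_max_right _ _, hN _ (le_max_left _ _)⟩

/-- If `f x` is in the generalized eigenspace, it is the image of an element of the generalized
eigenspace. -/
lemma exists_gen [FiniteDimensional E V] [FiniteDimensional E W] {f : V →ₗ[E] W}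
    (h : ∀ x, f (F x) = G (f x)) {x : V} (hx : f x ∈ Module.End.maxGenEigenspace G 1) :
    ∃ y ∈ Module.End.maxGenEigenspace F 1, f y = f x := by
  obtain ⟨m, hm⟩ := mem_gen.1 hx
  obtain ⟨N₁, h1⟩ := Filter.eventually_atTop.1 (F - 1).eventually_isCompl_ker_pow_range_pow
  obtain ⟨N₂, h2⟩ := Filter.eventually_atTop.1 (G - 1).eventually_isCompl_ker_pow_range_pow
  set n := max (max N₁ N₂) m with hn
  have c1 := h1 n ((le_max_left _ _).trans (le_max_left _ _))
  have c2 := h2 n ((le_max_right _ _).trans (le_max_left _ _))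
  have hx1 : x ∈ LinearMap.ker ((F - 1) ^ n) ⊔ LinearMap.range ((F - 1) ^ n) := by
    rw [c1.sup_eq_top]; trivial
  obtain ⟨y, hy, z, hz, rfl⟩ := Submodule.mem_sup.1 hx1
  obtain ⟨w, rfl⟩ := hz
  refine ⟨y, mem_gen.2 ⟨n, hy⟩, ?_⟩
  have h3 : f (((F - 1) ^ n) w) ∈ LinearMap.range ((G - 1) ^ n) := ⟨f w, (comm_sub h n w).symm⟩
  have h4 : f (((F - 1) ^ n) w) ∈ LinearMap.ker ((G - 1) ^ n) := by
    have h5 : ((G - 1) ^ n) (f (y + ((F - 1) ^ n) w)) = 0 := by
      have : n = (n - m) + m := (Nat.sub_add_cancel (le_max_right _ _)).symm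
      rw [this, pow_add, Module.End.mul_apply, ← this, hm, map_zero]
    have h6 : ((G - 1) ^ n) (f y) = 0 := by rw [← comm_sub h, (LinearMap.mem_ker.1 hy), map_zero]
    rw [map_add, map_add, h6, zero_add] at h5
    exact h5
  have h7 : f (((F - 1) ^ n) w) = 0 := by
    have := (c2.disjoint.le_bot : _) ⟨h4, h3⟩
    simpa using this
  rw [map_add, h7, add_zero]

lemma gen_eq_bot (h : LinearMap.ker (F - 1) = ⊥) : Module.End.maxGenEigenspace F 1 = ⊥ := by
  rw [eq_bot_iff]
  intro x hx
  obtain ⟨n, hn⟩ := mem_gen.1 hx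
  induction n generalizing x with
  | zero => simpa using hn
  | succ n ih =>
    have h1 : (F - 1) (((F - 1) ^ n) x) = 0 := by
      rw [← Module.End.mul_apply, ← pow_succ', hn]
    have h2 : ((F - 1) ^ n) x ∈ LinearMap.ker (F - 1) := h1
    rw [h, Submodule.mem_bot] at h2
    exact ih hx h2

lemma ker_le_gen : LinearMap.ker (F - 1) ≤ Module.End.maxGenEigenspace F 1 := fun x hx =>
  mem_gen.2 ⟨1, by simpa using hx⟩

end Gen

section Rat

variable {E : Type*} [Field E] [CharZero E] {ι κ : Type*}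

/-- Rational functions which are linearly independent over `ℚ` are linearly independent over `E`. -/
lemma linearIndependent_ratCast {w : ι → κ → ℚ} (hw : LinearIndependent ℚ w) :
    LinearIndependent E (fun j k => ((w j k : ℚ) : E)) := by
  classical
  rw [linearIndependent_iff'] at hw ⊢
  intro s g hg j hj
  let b := Basis.ofVectorSpace ℚ E
  have key : ∀ c, b.coord c (g j) = 0 := by
    intro c
    apply hw s (fun j => b.coord c (g j)) _ j hj
    funext k
    have h1 := congrFun hg k
    simp only [Finset.sum_apply, Pi.smul_apply, smul_eq_mul, Pi.zero_apply] at h1 ⊢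
    have h2 := congrArg (b.coord c) h1
    rw [map_sum, map_zero] at h2
    rw [← h2]
    refine Finset.sum_congr rfl fun x _ => ?_
    have h3 : g x * ((w x k : ℚ) : E) = (w x k) • g x := by
      rw [Rat.smul_def, mul_comm]
    rw [h3, map_smul, smul_eq_mul, mul_comm]
  exact (b.ext_elem_iff.2 fun c => by simpa using key c)

end Rat

end Pool.Agent.J4H12.JT
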