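import Pool.Agent.J4H12.JT.Lin

/-!
# The equivalence of (a), (b), Q2 and strong Tate
-/

set_option autoImplicit false

universe u

namespace Pool.Agent.J4H12.JT

open Module

namespace Homology

variable {E : Type u} [Field E] [CharZero E] {T : Homology E}

/-- Tate and semisimplicity at one. -/
def TS (T : Homology E) (X : T.Var) (i : ℕ) : Prop := T.gen X i ≤ T.cyc X i

lemma cyc_le_tate (X : T.Var) (i : ℕ) : T.cyc X i ≤ T.tate X i := by
  rw [cyc, Submodule.span_le]
  intro x hx
  change (T.F X i - 1) x = 0
  simp [T.fixed X i x hx]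

lemma tate_le_gen (X : T.Var) (i : ℕ) : T.tate X i ≤ T.gen X i := ker_le_gen

lemma ts_iff {X : T.Var} {i : ℕ} : T.TS X i ↔ T.PartA X i ∧ T.Semisimple X i :=
  ⟨fun h => ⟨(tate_le_gen X i).trans h, h.trans (cyc_le_tate X i)⟩, fun h => h.2.trans h.1⟩

variable {A B X : T.Var} {i : ℕ}

lemma Presentation.mem_cyc_a (P : T.Presentation A B X i) {x : T.H A i} (hx : x ∈ T.cyc A i) :
    P.a x ∈ T.cyc B i := by
  have h : T.cyc A i ≤ (T.cyc B i).comap P.a := by
    rw [cyc, Submodule.span_le]
    exact fun y hy => Submodule.subset_span (P.cyc_a y hy)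
  exact h hx

lemma Presentation.mem_cyc_b (P : T.Presentation A B X i) {x : T.H B i} (hx : x ∈ T.cyc B i) :
    P.b x ∈ T.cyc X i := by
  have h : T.cyc B i ≤ (T.cyc X i).comap P.b := by
    rw [cyc, Submodule.span_le]
    exact fun y hy => Submodule.subset_span (P.cyc_b y hy)
  exact h hx

/-- Tate and semisimplicity are inherited by quotients. -/
lemma Presentation.ts (P : T.Presentation A B X i) (h : T.TS B i) : T.TS X i := by
  intro x hx
  obtain ⟨y, rfl⟩ := P.surj x
  obtain ⟨z, hz, hzy⟩ := exists_gen P.comm_b hx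
  rw [← hzy]
  exact P.mem_cyc_b (h hz)

/-- If the generalized eigenspace of `X` is zero then that of `B` comes from `A`. -/
lemma Presentation.ts_of_gen_eq_bot (P : T.Presentation A B X i) (hA : T.TS A i)
    (h : T.gen X i = ⊥) : T.TS B i := by
  intro x hx
  have h1 : P.b x ∈ T.gen X i := map_gen P.comm_b hx
  rw [h, Submodule.mem_bot] at h1
  have h2 : x ∈ LinearMap.range P.a := by rw [P.exact]; exact h1
  obtain ⟨y, rfl⟩ := h2
  obtain ⟨z, hz, hzy⟩ := exists_gen P.comm_a hx
  rw [← hzy]
  exact P.mem_cyc_a (hA hz)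

/-- If the classes of cycles on `B` come from `A` then there are none on `X`. -/
lemma Presentation.B_eq_bot (P : T.Presentation A B X i)
    (h : ∀ x ∈ T.B B i, x ∈ LinearMap.range P.a) : T.B X i = ⊥ := by
  rw [eq_bot_iff]
  intro x hx
  obtain ⟨y, hy, rfl⟩ := P.lift x hx
  have h1 := h y hy
  rw [P.exact] at h1
  exact h1

/-- (a) for the open subvarieties of `X` implies semisimplicity. -/
theorem ts_of_partA
    (hsup : ∀ s : Finset (T.H X i), (∀ x ∈ s, x ∈ T.B X i) → ∃ U, T.IsComplement X i U s)
    (hU : ∀ U s, T.IsComplement X i U s → T.PartA U i) : T.TS X i := by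
  classical
  have hfg : (Submodule.span E (T.B X i : Set (T.H X i))).FG := IsNoetherian.noetherian _
  obtain ⟨s, hs, hspan⟩ := (Submodule.fg_span_iff_fg_span_finset_subset _).1 hfg
  obtain ⟨U, hUc⟩ := hsup s hs
  have hAU := hU U s hUc
  obtain ⟨Z, P, hZ, hsP⟩ := hUc
  have hB : T.B U i = ⊥ := by
    apply P.B_eq_bot
    intro x hx
    have h1 : x ∈ Submodule.span E (s : Set (T.H X i)) := by
      rw [← hspan]; exact Submodule.subset_span hx
    have h2 : Submodule.span E (s : Set (T.H X i)) ≤ LinearMap.range P.a := by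
      rw [Submodule.span_le]
      intro y hy
      obtain ⟨z, -, hz⟩ := hsP y hy
      exact ⟨z, hz⟩
    exact h2 h1
  have h0 : T.tate U i = ⊥ := by
    rw [eq_bot_iff]
    refine hAU.trans ?_
    rw [cyc, hB]
    simp
  exact P.ts_of_gen_eq_bot hZ (gen_eq_bot h0)

/-- Q2 for `X` and its open subvarieties implies (a) and semisimplicity. -/
theorem ts_of_poleOrder (hX' : T.PoleOrder X i)
    (hsup : ∀ s : Finset (T.H X i), (∀ x ∈ s, x ∈ T.B X i) → ∃ U, T.IsComplement X i U s)
    (hU : ∀ U s, T.IsComplement X i U s → T.PoleOrder U i) : T.TS X i := by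
  classical
  have hX := T.poleOrder_iff.1 hX'
  have hlt : Module.rank ℚ (T.B X i) < Cardinal.aleph0 := by
    rw [hX]
    exact Module.rank_lt_aleph0 E _
  have hfin : Module.Finite ℚ (T.B X i) := Module.rank_lt_aleph0_iff.1 hlt
  have hfg : (T.B X i).FG := (Submodule.fg_iff_finiteDimensional (T.B X i)).2 hfin
  obtain ⟨s, hs⟩ := hfg
  obtain ⟨U, hUc⟩ := hsup s (fun x hx => by rw [← hs]; exact Submodule.subset_span hx)
  have hAU := T.poleOrder_iff.1 (hU U s hUc)
  obtain ⟨Z, P, hZ, hsP⟩ := hUc
  have hB : T.B U i = ⊥ := by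
    apply P.B_eq_bot
    intro x hx
    rw [← hs] at hx
    have h2 : Submodule.span ℚ (s : Set (T.H X i)) ≤
        (LinearMap.range P.a).restrictScalars ℚ := by
      rw [Submodule.span_le]
      intro y hy
      obtain ⟨z, -, hz⟩ := hsP y hy
      exact ⟨z, hz⟩
    exact h2 hx
  have h0 : T.gen U i = ⊥ := by
    have h1 : Module.rank E (T.gen U i) = 0 := by
      rw [← hAU, hB, rank_bot]
    exact Submodule.rank_eq_zero.1 h1
  exact P.ts_of_gen_eq_bot hZ h0

/-- Injectivity passes to quotients. -/
theorem Presentation.inj (P : T.Presentation A B X i) (hA : T.TS A i) (hB : T.Inj B i) :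
    T.Inj X i := by
  classical
  intro ι v hv hlin
  choose y hy hyv using fun j => P.lift (v j) (hv j)
  have hbv : v = P.b ∘ y := funext fun j => (hyv j).symm
  -- the classes of cycles on `B` which die on `X`
  let K : Submodule ℚ (T.H B i) := T.B B i ⊓ (LinearMap.ker P.b).restrictScalars ℚ
  let c := Basis.ofVectorSpace ℚ K
  let k : Basis.ofVectorSpaceIndex ℚ K → T.H B i := fun j => (c j : T.H B i)
  have hk : LinearIndependent ℚ k := c.linearIndependent.map' K.subtype (Submodule.ker_subtype K)
  have hyB : LinearIndependent ℚ y := by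
    have h1 : LinearIndependent ℚ ((P.b.restrictScalars ℚ) ∘ y) := by
      rw [show (P.b.restrictScalars ℚ) ∘ y = v from hbv.symm]
      exact hlin
    exact h1.of_comp
  have hspank : Submodule.span ℚ (Set.range k) = K := by
    have h1 : Set.range k = K.subtype '' Set.range c := by
      rw [← Set.range_comp]; rfl
    rw [h1, Submodule.span_image, c.span_eq, Submodule.map_top, Submodule.range_subtype]
  have hdis : Disjoint (Submodule.span ℚ (Set.range y)) (Submodule.span ℚ (Set.range k)) := by
    rw [hspank, Submodule.disjoint_def]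
    intro x hx hxK
    have hker : P.b x = 0 := hxK.2
    obtain ⟨l, rfl⟩ := (Finsupp.mem_span_range_iff_exists_finsupp).1 hx
    have h1 : l.sum (fun j a => a • v j) = 0 := by
      rw [← hker, Finsupp.sum, Finsupp.sum, map_sum]
      refine Finset.sum_congr rfl fun j _ => ?_
      rw [← hyv j]
      exact (map_rat_smul P.b (l j) (y j)).symm
    have h2 : l = 0 := by
      have := linearIndependent_iff.1 hlin l
      exact this (by rw [Finsupp.linearCombination_apply]; exact h1)
    rw [h2]
    simp
  have hsum : LinearIndependent ℚ (Sum.elim y k) := hyB.sum_type hk hdis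
  -- all these elements are classes of cycles on `B`
  let w : ι ⊕ Basis.ofVectorSpaceIndex ℚ K → T.H B i := Sum.elim y k
  have hw : ∀ j, w j ∈ T.B B i := by
    rintro (j | j)
    · exact hy j
    · exact (c j).2.1
  have hwE : LinearIndependent E (Sum.elim y k) := hB _ w hw hsum
  obtain ⟨hyE, hkE, hdE⟩ := linearIndependent_sum.1 hwE
  simp only [Sum.elim_comp_inl, Sum.elim_comp_inr] at hyE hkE hdE
  rw [linearIndependent_iff]
  intro l hl
  rw [Finsupp.linearCombination_apply] at hl
  have h1 : l.sum (fun j a => a • y j) ∈ LinearMap.ker P.b := by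
    rw [LinearMap.mem_ker, Finsupp.sum, map_sum]
    rw [Finsupp.sum] at hl
    rw [← hl]
    exact Finset.sum_congr rfl fun j _ => by rw [map_smul, hyv j]
  have h2 : l.sum (fun j a => a • y j) ∈ T.cyc B i := by
    rw [Finsupp.sum]
    exact Submodule.sum_mem _ fun j _ => Submodule.smul_mem _ _ (Submodule.subset_span (hy j))
  have h3 : l.sum (fun j a => a • y j) ∈ Submodule.span E (Set.range k) := by
    have h4 := h1
    rw [← P.exact] at h4
    obtain ⟨z, hz⟩ := h4
    have h5 : P.a z ∈ T.gen B i := by
      rw [hz]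
      exact tate_le_gen B i (cyc_le_tate B i h2)
    obtain ⟨z', hz', hzz⟩ := exists_gen P.comm_a h5
    rw [← hz, ← hzz]
    have h6 : T.cyc A i ≤ (Submodule.span E (Set.range k)).comap P.a := by
      rw [cyc, Submodule.span_le]
      intro t ht
      have h7 : P.a t ∈ K := ⟨P.cyc_a t ht, by
        change P.a t ∈ LinearMap.ker P.b
        rw [← P.exact]
        exact ⟨t, rfl⟩⟩
      rw [← hspank] at h7
      exact Submodule.span_le_restrictScalars ℚ E _ h7
    exact h6 (hA hz')
  have h4 : l.sum (fun j a => a • y j) ∈ Submodule.span E (Set.range y) := by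
    rw [Finsupp.sum]
    exact Submodule.sum_mem _ fun j _ => Submodule.smul_mem _ _ (Submodule.subset_span ⟨j, rfl⟩)
  have h5 : l.sum (fun j a => a • y j) = 0 := (Submodule.disjoint_def.1 hdE) _ h4 h3
  exact linearIndependent_iff.1 hyE l (by rw [Finsupp.linearCombination_apply]; exact h5)

/-- Strong Tate and injectivity imply Q2. -/
theorem poleOrder_of (h : T.TS X i) (hinj : T.Inj X i) : T.PoleOrder X i := by
  classical
  let c := Basis.ofVectorSpace ℚ (T.B X i)
  let k : Basis.ofVectorSpaceIndex ℚ (T.B X i) → T.H X i := fun j => (c j : T.H X i)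
  have hk : LinearIndependent ℚ k :=
    c.linearIndependent.map' (T.B X i).subtype (Submodule.ker_subtype _)
  have hkE : LinearIndependent E k := hinj _ k (fun j => (c j).2) hk
  have hspank : Submodule.span ℚ (Set.range k) = T.B X i := by
    have h1 : Set.range k = (T.B X i).subtype '' Set.range c := by
      rw [← Set.range_comp]; rfl
    rw [h1, Submodule.span_image, c.span_eq, Submodule.map_top, Submodule.range_subtype]
  have hspanE : Submodule.span E (Set.range k) = T.gen X i := by
    apply le_antisymm
    · refine le_trans ?_ ((cyc_le_tate X i).trans (tate_le_gen X i))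
      rw [Submodule.span_le]
      rintro _ ⟨j, rfl⟩
      exact Submodule.subset_span (c j).2
    · refine le_trans h ?_
      rw [cyc, Submodule.span_le]
      intro x hx
      have hx' : x ∈ T.B X i := hx
      rw [← hspank] at hx'
      exact Submodule.span_le_restrictScalars ℚ E _ hx'
  rw [poleOrder_iff, ← hspanE, rank_span hkE, Cardinal.mk_range_eq _ hkE.injective, c.mk_eq_rank'']

/-- Classes of cycles on a variety with Poincaré duality: strong Tate in both degrees implies that
rationally independent classes are independent. -/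
theorem inj_of_dual {P : T.Var} {i i' : ℕ} (hd : T.Dual P i i') (h' : T.TS P i') :
    T.Inj P i := by
  classical
  obtain ⟨β, hnd, hinv, hrat⟩ := hd
  have hrat' : ∀ (x : T.B P i) (y : T.B P i'), ∃ r : ℚ, β (x : T.H P i) (y : T.H P i') = r :=
    fun x y => hrat x x.2 y y.2
  choose q hq using hrat'
  -- `β x` is determined by its values on the classes of cycles
  have hker : ∀ x ∈ T.tate P i, (∀ y ∈ T.B P i', β x y = 0) → x = 0 := by
    intro x hx h0
    apply hnd
    intro y
    have hxF : T.F P i x = x := by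
      have : (T.F P i - 1) x = 0 := hx
      rwa [LinearMap.sub_apply, Module.End.one_apply, sub_eq_zero] at this
    have hstep : ∀ z, β x ((T.F P i' - 1) z) = 0 := by
      intro z
      rw [LinearMap.sub_apply, Module.End.one_apply, map_sub, sub_eq_zero]
      conv_lhs => rw [← hxF]
      exact hinv x z
    obtain ⟨n, hn, hc⟩ := fitting (T.F P i') 1
    have hy : y ∈ LinearMap.ker ((T.F P i' - 1) ^ n) ⊔ LinearMap.range ((T.F P i' - 1) ^ n) := by
      rw [hc.sup_eq_top]; trivial
    obtain ⟨y₁, hy₁, y₂, ⟨z, rfl⟩, rfl⟩ := Submodule.mem_sup.1 hy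
    have h1 : y₁ ∈ T.cyc P i' := h' (mem_gen.2 ⟨n, hy₁⟩)
    have h2 : β x y₁ = 0 := by
      have h3 : T.cyc P i' ≤ LinearMap.ker (β x) := by
        rw [cyc, Submodule.span_le]
        exact fun t ht => h0 t ht
      exact h3 h1
    have h4 : β x (((T.F P i' - 1) ^ n) z) = 0 := by
      obtain ⟨m, rfl⟩ : ∃ m, n = m + 1 := ⟨n - 1, by omega⟩
      rw [pow_succ', Module.End.mul_apply]
      exact hstep _
    rw [map_add, h2, h4, add_zero]
  intro ι v hv hlin
  let v' : ι → T.B P i := fun j => ⟨v j, hv j⟩
  have hv' : LinearIndependent ℚ v' := by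
    apply LinearIndependent.of_comp (T.B P i).subtype
    exact hlin
  -- the rational functions
  have hrl : LinearIndependent ℚ (fun j => (fun y => q (v' j) y : T.B P i' → ℚ)) := by
    rw [linearIndependent_iff'] at hv' ⊢
    intro s g hg j hj
    refine hv' s g ?_ j hj
    apply Subtype.ext
    have hsum : ((∑ j ∈ s, g j • v' j : T.B P i) : T.H P i) = ∑ j ∈ s, g j • v j := by
      simp [v']
    rw [hsum, Submodule.coe_zero]
    apply hker
    · exact cyc_le_tate P i (Submodule.subset_span (Submodule.sum_mem (T.B P i) fun j _ =>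
        Submodule.smul_mem _ _ (hv j)))
    · intro y hy
      have h1 := congrFun hg ⟨y, hy⟩
      simp only [Finset.sum_apply, Pi.smul_apply, smul_eq_mul, Pi.zero_apply] at h1
      have h2 : β (∑ j ∈ s, g j • v j) y = ((∑ j ∈ s, g j * q (v' j) ⟨y, hy⟩ : ℚ) : E) := by
        rw [map_sum, LinearMap.sum_apply, Rat.cast_sum]
        refine Finset.sum_congr rfl fun j _ => ?_
        rw [Rat.cast_mul, ← hq (v' j) ⟨y, hy⟩]
        have h3 : β (g j • v j) = g j • β (v j) := map_rat_smul β (g j) (v j)
        rw [h3, LinearMap.smul_apply, Rat.smul_def]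
      rw [h2, h1, Rat.cast_zero]
  have hE := linearIndependent_ratCast (E := E) hrl
  -- compare with `β`
  let Φ : T.H P i →ₗ[E] (T.B P i' → E) :=
    { toFun := fun x y => β x y
      map_add' := fun x x' => by funext y; simp
      map_smul' := fun a x => by funext y; simp }
  apply LinearIndependent.of_comp Φ
  have : Φ ∘ v = fun j (y : T.B P i') => ((q (v' j) y : ℚ) : E) := by
    funext j y
    exact hq (v' j) y
  rw [this]
  exact hE

end Homology

end Pool.Agent.J4H12.JT
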